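import Pool.Agent.Work.MP_d3fa71_gt.StmtsG

/-!
# MP_d3fa71_gt: upper bound at `q = 1` (block B): statements
-/

open Polynomial

namespace AJG

/-- `∏_{z ∈ l} (E - z)` applied to `w`. -/
def opl {O V : Type} [CommRing O] [AddCommGroup V] [Module O V] (E : V →+ V) (l : List O)
    (w : V) : V := l.foldr (fun z u => E u - z • u) w

/-- `∏ (E - z)` maps `W` into `π W`. -/
def Good {O V : Type} [CommRing O] [AddCommGroup V] [Module O V] (π : O) (E : V →+ V)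
    (W : Submodule O V) (l : List O) : Prop := ∀ w ∈ W, ∃ u ∈ W, opl E l w = π • u

/-- The operator `∑ q_j E^j` applied to `x`. -/
def opp {O V : Type} [CommRing O] [AddCommGroup V] [Module O V] (E : V →+ V) (q : Polynomial O)
    (x : V) : V := ∑ j ∈ Finset.range (q.natDegree + 1), q.coeff j • (⇑E)^[j] x

/-- Artin-Rees: an annihilating operator with known reduction. -/
def S_AR : Prop := ∀ (O : Type) [CommRing O] [IsNoetherianRing O] (π : O) (σ : O →+* O),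
  (∀ a, π ∣ σ a - a) → σ π = π → ∀ (V : Type) [AddCommGroup V] [Module O V] (E : V →+ V),
  (∀ (a : O) (v : V), E (a • v) = σ a • E v) → ∀ (W : Submodule O V), W.FG →
  (∀ w ∈ W, E w ∈ W) → ∀ l : List O, Good π E W l → ∀ x ∈ W,
  ∃ (k : ℕ) (q : Polynomial O), opp E q x = 0 ∧
    ∀ j, π ∣ (q - ((l.map fun z => (X - C z : Polynomial O)).prod) ^ k).coeff j

/-- Gauss lemma for operators. -/
def S_Gauss : Prop := ∀ (O : Type) [CommRing O] [IsDomain O] (π : O) (σ : O →+* O),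
  Function.Injective σ → Prime π → (∀ a : O, a ≠ 0 → ∃ (k : ℕ) (b : O), a = π ^ k * b ∧ ¬ π ∣ b) →
  (∀ a, π ∣ σ a - a) → σ π = π → ∀ (V : Type) [AddCommGroup V] [Module O V] (E : V →+ V),
  (∀ (a : O) (v : V), E (a • v) = σ a • E v) → ∀ (x : V) (α q : Polynomial O),
  opp E α x = 0 → (∃ j, ¬ π ∣ α.coeff j) →
  (∀ β : Polynomial O, β ≠ 0 → opp E β x = 0 → α.natDegree ≤ β.natDegree) →
  opp E q x = 0 → ∃ (c : O) (g : Polynomial O), ¬ π ∣ c ∧ ∀ j, π ∣ (C c * q - g * α).coeff j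

/-- Products. -/
def S_Prod : Prop := ∀ (O : Type) [CommRing O] (π : O) (σ : O →+* O), (∀ a, π ∣ σ a - a) →
  ∀ (V : Type) [CommRing V] [Algebra O V] (E : V →+* V), (∀ (a : O) (v : V), E (a • v) = σ a • E v) →
  ∀ (W₁ W₂ : Submodule O V), (∀ w ∈ W₁, E w ∈ W₁) → (∀ w ∈ W₂, E w ∈ W₂) → ∀ (l₁ l₂ : List O),
  Good π E.toAddMonoidHom W₁ l₁ → Good π E.toAddMonoidHom W₂ l₂ →
  Good π E.toAddMonoidHom (W₁ * W₂) (l₁.flatMap fun a => l₂.map fun b => a * b)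

/-- The induction for the upper bound. -/
def S_UBind : Prop := ∀ (O : Type) [CommRing O] [IsNoetherianRing O] (π : O) (σ : O →+* O)
  (tt MM : Oˣ), (∀ a, π ∣ σ a - a) → σ π = π → π ∣ (tt : O) - 1 → σ tt = tt →
  σ MM = tt ^ 2 * MM →
  (∀ S c : ℕ, 0 < S → IsUnit (1 - ((tt ^ (-(4 * (c : ℤ))) * MM ^ (-(2 * (S : ℤ))) : Oˣ) : O))) →
  ∀ (V : Type) [CommRing V] [Algebra O V] (E : V →+* V),
  (∀ (a : O) (v : V), E (a • v) = σ a • E v) → ∀ jj : GK → ℕ → ℕ → V,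
  (∀ K S c, 0 < S → E (jj K S c) = jj K S (c + S)) →
  (∀ S c : ℕ, 0 < S → jj .unknot S c =
    algebraMap O V (1 - ((tt ^ (-(4 * (c : ℤ))) * MM ^ (-(2 * (S : ℤ))) : Oˣ) : O))) →
  (∀ (K L : GK) (S c : ℕ), 0 < S →
    (1 - ((tt ^ (-(4 * (c : ℤ))) * MM ^ (-(2 * (S : ℤ))) : Oˣ) : O)) • jj (.sum K L) S c =
      jj K S c * jj L S c) →
  (∀ (r : ℤ) (s : ℕ) (K : GK) (S c : ℕ), 0 < S → 2 ≤ s → IsCoprime r (s : ℤ) →
    jj (.cable r s K) S (c + 2) =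
      ((tt ^ (-(4 * r * s * (c + 1)) - 4) * MM ^ (-(2 * r * s * S)) : Oˣ) : O) •
        jj (.cable r s K) S c +
      ((tt ^ (-(2 * (r - 1) * (s - 1) * (c + 1))) * MM ^ (-((r - 1) * (s - 1) * S)) : Oˣ) : O) •
        jj K (s * S) (s * (c + 1) + 1) -
      ((tt ^ (-(2 * ((r - 1) * (s + 1) + 2) * (c + 1)) - 4) *
        MM ^ (-(((r - 1) * (s + 1) + 2) * S)) : Oˣ) : O) •
        jj K (s * S) (s * (c + 1) - 1)) →
  (∀ (r : ℤ) (K : GK) (S c : ℕ), 0 < S → IsCoprime r 2 →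
    jj (.cable r 2 K) S (c + 1) =
      -((tt ^ (-(2 * (2 * c + 1) * r) - 2) * MM ^ (-(2 * r * S)) : Oˣ) : O) •
        jj (.cable r 2 K) S c +
      ((tt ^ (-(2 * (r - 1) * c)) * MM ^ (-((r - 1) * S)) : Oˣ) : O) •
        jj K (2 * S) (2 * c + 1)) →
  ∀ K : GK, K.Valid → ∀ S : ℕ, 0 < S → ∃ (W : Submodule O V) (l : List O), W.FG ∧
    (∀ w ∈ W, E w ∈ W) ∧ (∀ c, jj K S c ∈ W) ∧ Good π E.toAddMonoidHom W l ∧
    ∀ z ∈ l, ∃ y ∈ K.Lab,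
      π ∣ z - (((y.1 : ℤ) : O)) ^ S * ((MM ^ (y.2 * (S : ℤ) ^ 2) : Oˣ) : O)

/-- The embedding `t ↦ t ^ 4` of `ℚ(q)` into `ℚ(t)`. -/
noncomputable def q4 : FF →+* FF :=
  RatFunc.mapRingHom ((Polynomial.expand ℚ 4 : ℚ[X] →ₐ[ℚ] ℚ[X]) : ℚ[X] →+* ℚ[X]) (by
    intro p hp
    rw [Submonoid.mem_comap]
    refine mem_nonZeroDivisors_of_ne_zero ?_
    have hp0 : p ≠ 0 := nonZeroDivisors.ne_zero hp
    exact (Polynomial.expand_ne_zero (by norm_num)).2 hp0)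

/-- the coloured Jones function takes values in `ℚ(q)` -/
def S_Jq : Prop := ∀ K : GK, K.Valid → ∀ n : ℕ, K.J n ∈ q4.fieldRange

/-- `ℚ[t][M]`. -/
abbrev Pl : Type := ℚ[X][X]

/-- Evaluation `M ↦ η t^{2n}`. -/
noncomputable def evPl (n : ℕ) (η : ℤˣ) : Pl →+* FF :=
  Polynomial.eval₂RingHom (Polynomial.eval₂RingHom (algebraMap ℚ FF) t)
    (((η : ℤ) : FF) * t ^ (2 * n))

/-- Descent from `ℚ(t, M)` to `ℚ(q, Q)`. -/
def S_Desc : Prop := ∀ (f : ℕ → FF), (∀ n, f n ∈ q4.fieldRange) → ∀ β : Polynomial Pl, β ≠ 0 →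
  (∃ n₀ : ℕ, ∀ n : ℕ, n₀ ≤ n → ∀ η : ℤˣ,
    ∑ j ∈ Finset.range (β.natDegree + 1), evPl n η (β.coeff j) * f (n + j) = 0) →
  ∃ γ : Polynomial R2, γ ≠ 0 ∧ γ.natDegree ≤ β.natDegree ∧ Kills γ f

/-- An annihilator exists as soon as there is a non-zero killing operator. -/
def S_NCAEx : Prop := ∀ (f : ℕ → FF) (γ : Polynomial R2), γ ≠ 0 → Kills γ f → ∃ α, IsNCA f α

/-- `ℤ[M^{±1}] → ℚ[M^{±1}]`. -/
noncomputable def mapQ : LaurentPolynomial ℤ →+* LaurentPolynomial ℚ :=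
  LaurentPolynomial.eval₂ (Int.castRingHom (LaurentPolynomial ℚ))
    (⟨LaurentPolynomial.T 1, LaurentPolynomial.T (-1),
      by rw [← LaurentPolynomial.T_add]; norm_num, by rw [← LaurentPolynomial.T_add]; norm_num⟩ :
      (LaurentPolynomial ℚ)ˣ)

/-- The inclusion of the coefficients, `q ↦ t ^ 4`, `Q ↦ M ^ 2`, up to a power of `t M`. -/
def S_R2Pl : Prop := ∀ α : Polynomial R2, ∃ (N : ℕ) (β : Polynomial Pl),
  β.natDegree = α.natDegree ∧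
  (∀ j (n : ℕ) (η : ℤˣ), evPl n η (β.coeff j) =
    (t * (((η : ℤ) : FF) * t ^ (2 * n))) ^ (4 * N) * ev n (α.coeff j)) ∧
  ∀ j, (Polynomial.map (Polynomial.evalRingHom (1 : ℚ)) (β.coeff j) : ℚ[X]).toLaurent =
    LaurentPolynomial.T (4 * N) *
      mapQ (sp (α.coeff j))

/-- The local ring at `t = 1`. -/
def S_OO : Prop := ∃ (O : Type) (_ : CommRing O) (_ : IsDomain O) (_ : IsNoetherianRing O)
  (π : O) (σ : O →+* O) (tt MM : Oˣ) (red : O →+* RatFunc ℚ) (ι : Pl →+* O)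
  (ψ : ℤˣ → O →+* GG),
  Function.Injective σ ∧ Prime π ∧ (∀ a : O, a ≠ 0 → ∃ (k : ℕ) (b : O), a = π ^ k * b ∧ ¬ π ∣ b) ∧
  (∀ a, π ∣ σ a - a) ∧ σ π = π ∧ π ∣ (tt : O) - 1 ∧ σ tt = tt ∧ σ MM = tt ^ 2 * MM ∧
  (∀ S c : ℕ, 0 < S → IsUnit (1 - ((tt ^ (-(4 * (c : ℤ))) * MM ^ (-(2 * (S : ℤ))) : Oˣ) : O))) ∧
  (∀ a, red a = 0 ↔ π ∣ a) ∧ red tt = 1 ∧ red MM = RatFunc.X ∧
  Function.Injective ι ∧ ι (C X) = tt ∧ ι X = MM ∧
  (∀ a : O, ∃ p s : Pl, ι s * a = ι p ∧ red (ι s) ≠ 0) ∧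
  (∀ p : Pl, red (ι p) = algebraMap ℚ[X] (RatFunc ℚ) (Polynomial.map (Polynomial.evalRingHom 1) p)) ∧
  (∀ η p, ψ η (ι p) = gm fun n => evPl n η p) ∧ ∀ η a, ψ η (σ a) = EG (ψ η a)

/-- Reduction `t = 1` : `ℚ[t][M] → ℚ[M^{±1}]`. -/
noncomputable def redP : Pl →+* LaurentPolynomial ℚ :=
  (Polynomial.toLaurent (R := ℚ)).comp (Polynomial.mapRingHom (Polynomial.evalRingHom (1 : ℚ)))

/-- `β ∈ ℚ[t][M][L]` kills the sequence `f`, for `M = t^{2n}` and for `M = -t^{2n}`, `n` large. -/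
def KillsPl (β : Polynomial Pl) (f : ℕ → FF) : Prop := ∃ n₀ : ℕ, ∀ n : ℕ, n₀ ≤ n → ∀ η : ℤˣ,
  ∑ j ∈ Finset.range (β.natDegree + 1), evPl n η (β.coeff j) * f (n + j) = 0

/-- A killing operator whose roots at `t = 1` are labels. -/
def S_KillPl : Prop := ∀ K : GK, K.Valid → ∃ (β : Polynomial Pl) (l : List (ℤˣ × ℤ))
  (c : LaurentPolynomial ℚ), KillsPl β K.J ∧ c ≠ 0 ∧ (∀ z ∈ l, z ∈ K.Lab) ∧
  β.map redP = C c * (l.map fun z => (X - C (mapQ (lab z)) : Polynomial (LaurentPolynomial ℚ))).prod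

/-- Gauss lemma for the non-commutative A-polynomial. -/
def S_GaussPl : Prop := ∀ (f : ℕ → FF), (∀ n, f n ∈ q4.fieldRange) → ∀ α : Polynomial R2,
  IsNCA f α → ∀ β : Polynomial Pl, KillsPl β f →
  ∃ c : LaurentPolynomial ℚ, c ≠ 0 ∧ α.map (mapQ.comp sp) ∣ C c * β.map redP

end AJG
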