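import Pool.Agent.Work.MP_d3fa71_gt.DefsC

/-!
# MP_d3fa71_gt: lower bound (block C): statements, abstract part and step
-/

open Polynomial

namespace AJG

/-- `σ`-simple extensions. -/
def S_SimpleExt : Prop := ∀ (A : Type) [CommRing A] [Algebra FF A] (σ : A →+* A) (W : Type)
  (g : W → A), SSimple σ → SConst σ → IndepMod σ g → SSimple (sext σ g) ∧ SConst (sext σ g)

/-- Independence modulo `σ - 1` from the top coefficients. -/
def S_IndStep : Prop := ∀ (A : Type) [CommRing A] [Algebra FF A] (σ : A →+* A) (W : Type)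
  [DecidableEq (W →₀ ℕ)] (g : W → A), SConst σ → ∀ (V : Type) (f : V → MvPolynomial W A) (m : V → W →₀ ℕ) (u : V → FF)
  (g' : V → A), (∀ v, u v ≠ 0) → (∀ v, (f v).totalDegree ≤ Finsupp.degree (m v)) →
  (∀ v n, Finsupp.degree n = Finsupp.degree (m v) →
    MvPolynomial.coeff n (f v) = if n = m v then u v • g' v else 0) →
  (∀ a : W →₀ ℕ, IndepMod σ (Sum.elim (fun v : {v : V // m v = a} => g' v.1) g)) →
  IndepMod (sext σ g) f

/-- Data properties of the next level. -/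
def S_Shift : Prop := ∀ (L : Lv) (A : Type) [CommRing A] [Algebra FF A] (D : Dat A) (σ : A →+* A)
  (J : L.K → ℕ → ℕ → A), Core L A D σ J →
  (nextD (L := L) D).Ok ∧
  ((nextD (L := L) D).t : MvPolynomial (Var L) A) = algebraMap FF _ t ∧
  sext σ (gvar D J) (nextD (L := L) D).x = (nextD (L := L) D).t ^ 2 * (nextD (L := L) D).x ∧
  sext σ (gvar D J) (nextD (L := L) D).h =
    (nextD (L := L) D).t * (nextD (L := L) D).x * (nextD (L := L) D).h ∧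
  ∀ (κ : L.next.K) (S c : ℕ), 0 < S → Even S →
    sext σ (gvar D J) (extJ D J κ S c) = extJ D J κ S (c + S)

/-- Top coefficients of the increments of the next level. -/
def S_TopCoeff : Prop := ∀ (L : Lv) (A : Type) [CommRing A] (D : Dat A) (J : L.K → ℕ → ℕ → A),
  ∀ (ϱ : ℤ) (s S i p : ℕ) (κ : L.K) (M : Multiset (PT L)) (_ : 2 ≤ s) (_ : 0 < S) (_ : Even S)
    (_ : i < 2) (h : 0 < s * S ∧ Even (s * S)) (he : par s i < 2),
  (gv (L := L.next) (nextD (L := L) D) (extJ D J) ϱ s S i p (κ, M)).totalDegree ≤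
      Multiset.card M ∧
  ∀ n : Var L →₀ ℕ, Finsupp.degree n = Multiset.card M →
    (n = mono M (s * S) (par s i) h he →
      MvPolynomial.coeff n (gv (L := L.next) (nextD (L := L) D) (extJ D J) ϱ s S i p (κ, M)) =
        (sgM M (par s i) : A) * ((D.t ^ (-AA M) : Aˣ) : A) *
          gv D J (ϱ - s * AA M) s S i (p + Multiset.card M) κ) ∧
    (n ≠ mono M (s * S) (par s i) h he →
      MvPolynomial.coeff n (gv (L := L.next) (nextD (L := L) D) (extJ D J) ϱ s S i p (κ, M)) = 0)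

/-- Independence on the next level. -/
def S_IndNext : Prop := ∀ (L : Lv) (A : Type) [CommRing A] [Algebra FF A] (D : Dat A)
  (σ : A →+* A) (J : L.K → ℕ → ℕ → A), Core L A D σ J → ∀ S₁ : ℕ,
  IndepMod (sext σ (gvar D J)) (gfam (L := L.next) (nextD (L := L) D) (extJ D J) S₁)

/-- The step of the tower. -/
def S_CoreNext : Prop := ∀ (L : Lv) (A : Type) [CommRing A] [Algebra FF A] (D : Dat A)
  (σ : A →+* A) (J : L.K → ℕ → ℕ → A), Core L A D σ J →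
  Core L.next (MvPolynomial (Var L) A) (nextD (L := L) D) (sext σ (gvar D J)) (extJ D J)

/-! ## The base level -/

/-- The field `𝕂 = ℚ(t)(X)`. -/
abbrev KK : Type := RatFunc FF

/-- The substitution `X ↦ q X` on rational functions. -/
noncomputable def sq {k : Type} [Field k] (q : k) (hq : q ≠ 0) : RatFunc k →+* RatFunc k :=
  RatFunc.mapRingHom (Polynomial.eval₂RingHom Polynomial.C (Polynomial.C q * Polynomial.X)) (by
    intro p hp
    rw [Submonoid.mem_comap]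
    refine mem_nonZeroDivisors_of_ne_zero ?_
    have hp0 : p ≠ 0 := nonZeroDivisors.ne_zero hp
    intro h
    apply hp0
    have h1 : p.comp (Polynomial.C q * Polynomial.X) = 0 := h
    have h2 := congrArg (fun r => Polynomial.comp r (Polynomial.C q⁻¹ * Polynomial.X)) h1
    simp only [Polynomial.comp_assoc, Polynomial.mul_comp, Polynomial.C_comp, Polynomial.X_comp,
      Polynomial.zero_comp] at h2
    rw [← mul_assoc, ← Polynomial.C_mul, mul_inv_cancel₀ hq, Polynomial.C_1, one_mul,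
      Polynomial.comp_X] at h2
    exact h2)

theorem t_ne : t ≠ 0 := RatFunc.X_ne_zero

theorem t_sq_ne : t ^ 2 ≠ 0 := pow_ne_zero 2 t_ne

/-- `σ : X ↦ t² X` on `𝕂`. -/
noncomputable def sK : KK →+* KK := sq (t ^ 2) t_sq_ne

/-- `t` and `X` in `𝕂`. -/
noncomputable def tK : KK := RatFunc.C t
noncomputable def xK : KK := RatFunc.X

theorem tK_ne : tK ≠ 0 := by
  unfold tK
  rw [Ne, map_eq_zero]
  exact t_ne

theorem xK_ne : xK ≠ 0 := RatFunc.X_ne_zero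

/-- The base ring `𝕂[h^{±1}]`. -/
abbrev A0 : Type := LaurentPolynomial KK

/-- The data of the base ring. -/
noncomputable def D0 : Dat A0 where
  t := Units.map (LaurentPolynomial.C (R := KK)).toMonoidHom (Units.mk0 tK tK_ne)
  x := Units.map (LaurentPolynomial.C (R := KK)).toMonoidHom (Units.mk0 xK xK_ne)
  h := ⟨LaurentPolynomial.T 1, LaurentPolynomial.T (-1),
    by rw [← LaurentPolynomial.T_add]; norm_num, by rw [← LaurentPolynomial.T_add]; norm_num⟩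
  ib := fun S c => if S = 0 then 0 else LaurentPolynomial.C
    ((tK ^ (2 * (c : ℤ)) * xK ^ (S : ℤ) - tK ^ (-(2 * (c : ℤ))) * xK ^ (-(S : ℤ)))⁻¹)

/-- `σ` on the base ring: `X ↦ t² X`, `h ↦ t X h`. -/
noncomputable def s0 : A0 →+* A0 :=
  LaurentPolynomial.eval₂ ((LaurentPolynomial.C (R := KK)).comp sK) (D0.t * D0.x * D0.h)

/-- The unknot on the base level. -/
noncomputable def J0 : (lv 0).K → ℕ → ℕ → A0 := fun _ S c => D0.br S c

def S_BaseData : Prop := D0.Ok ∧ ((D0.t : A0) = algebraMap FF A0 t) ∧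
  s0 D0.x = D0.t ^ 2 * D0.x ∧ s0 D0.h = D0.t * D0.x * D0.h ∧
  (∀ (κ : (lv 0).K) (S c : ℕ), 0 < S → Even S → s0 (J0 κ S c) = J0 κ S (c + S)) ∧
  (∀ c : FF, s0 (algebraMap FF A0 c) = algebraMap FF A0 c)

def S_BaseSimple : Prop := SSimple s0

def S_BaseConst : Prop := ∀ a : A0, s0 a = a → ∃ c : FF, algebraMap FF A0 c = a

/-- brackets in `𝕂` -/
noncomputable def brK (S c : ℕ) : KK :=
  tK ^ (2 * (c : ℤ)) * xK ^ (S : ℤ) - tK ^ (-(2 * (c : ℤ))) * xK ^ (-(S : ℤ))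

/-- The `𝕂`-part of the increments of the unknot. -/
noncomputable def gK (ϱ : ℤ) (s S i p : ℕ) : KK :=
  ∑ k ∈ Finset.range (S / 2),
    (tK ^ (ϱ * s * ((i + 1 + 2 * k : ℕ) : ℤ) ^ 2 + 2 * ϱ * ((i + 1 + 2 * k : ℕ) : ℤ)) *
        xK ^ (ϱ * S * (s * ((i + 1 + 2 * k : ℕ) : ℤ) + 1)) *
        brK (s * S) (s * (i + 1 + 2 * k) + 1) * ((brK (s * S) (s * (i + 1 + 2 * k) + 1))⁻¹) ^ p -
      tK ^ (ϱ * s * ((i + 1 + 2 * k : ℕ) : ℤ) ^ 2 - 2 * ϱ * ((i + 1 + 2 * k : ℕ) : ℤ)) *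
        xK ^ (ϱ * S * (s * ((i + 1 + 2 * k : ℕ) : ℤ) - 1)) *
        brK (s * S) (s * (i + 1 + 2 * k) - 1) * ((brK (s * S) (s * (i + 1 + 2 * k) - 1))⁻¹) ^ p)

def S_gK : Prop := ∀ (ϱ : ℤ) (s S i p : ℕ) (κ : (lv 0).K), 0 < s → 0 < S →
  gv D0 J0 ϱ s S i p κ = LaurentPolynomial.T (ϱ * s * (S : ℤ) ^ 2) *
    LaurentPolynomial.C (gK ϱ s S i p)

/-- Laurent polynomials in `X` inside `𝕂`. -/
def IsLau {k : Type} [Field k] (f : RatFunc k) : Prop :=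
  ∃ (N : ℕ) (P : Polynomial k), f * RatFunc.X ^ N = algebraMap (Polynomial k) (RatFunc k) P

/-- Denominators: if `Π · (u X^E σ(b) - b)` is a Laurent polynomial and `Π` does not have two
roots in one `q`-orbit then `b` is a Laurent polynomial. -/
def S_Pole : Prop := ∀ (k : Type) [Field k] (q : k) (hq : q ≠ 0), (∀ n : ℕ, 0 < n → q ^ n ≠ 1) →
  ∀ (u : k), u ≠ 0 → ∀ (E : ℤ) (b : RatFunc k) (Q : Polynomial k), Q ≠ 0 →
  (∀ (ξ : AlgebraicClosure k) (n : ℕ), ξ ≠ 0 → 0 < n → Polynomial.aeval ξ Q = 0 →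
    Polynomial.aeval (algebraMap k (AlgebraicClosure k) q ^ n * ξ) Q ≠ 0) →
  IsLau (algebraMap (Polynomial k) (RatFunc k) Q *
    (RatFunc.C u * RatFunc.X ^ E * sq q hq b - b)) → IsLau b

/-- Elimination of the virtual increments with `p ≥ 2`. -/
def S_Elim : Prop := ∀ (ϱ : ℤ) (s S : ℕ), ϱ ≠ 0 → 2 ≤ s → 0 < S → Even S →
  ∀ (Pm : ℕ) (c : ℕ → ℕ → FF), (s = 2 → ∀ p, c p 1 = 0) → ∀ (b f : KK), IsLau f →
  (∑ p ∈ Finset.Icc 1 Pm, ∑ i ∈ Finset.range 2, RatFunc.C (c p i) * gK ϱ s S i p) + f =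
    tK ^ (ϱ * s * (S : ℤ) ^ 2) * xK ^ (ϱ * s * (S : ℤ) ^ 2) * sK b - b →
  (∀ p, 2 ≤ p → p ≤ Pm → ∀ i, i < 2 → c p i = 0) ∧ IsLau b

/-! ### Residue classes -/

/-- `σ` on Laurent polynomials: `T^x ↦ t^{2x} T^x`. -/
noncomputable def sL (b : LaurentPolynomial FF) : LaurentPolynomial FF :=
  b.coeff.sum fun x a => LaurentPolynomial.C (t ^ (2 * x) * a) * LaurentPolynomial.T x

/-- The class functional `Λ_y`. -/
noncomputable def Lam (E y : ℤ) (f : LaurentPolynomial FF) : FF :=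
  f.coeff.sum fun x a => if E ∣ x - y then t ^ (-((x - y) / E * (x + y))) * a else 0

def S_LamInv : Prop := ∀ (E y : ℤ), E ≠ 0 → ∀ b : LaurentPolynomial FF,
  Lam E y (LaurentPolynomial.C (t ^ E) * LaurentPolynomial.T E * sL b) = Lam E y b

/-- indicator of divisibility -/
def ind (E z : ℤ) : ℤ := if E ∣ z then 1 else 0

/-- counting function of the virtual increments, `p = 1` -/
def NV (E ϱ : ℤ) (s S i : ℕ) (y : ℤ) : ℤ :=
  ∑ k ∈ Finset.range (S / 2),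
    (ind E (ϱ * S * (s * ((i + 1 + 2 * k : ℕ) : ℤ) + 1) - y) -
      ind E (ϱ * S * (s * ((i + 1 + 2 * k : ℕ) : ℤ) - 1) - y))

/-- counting function of the torus knots -/
def NT (E r : ℤ) (s S i : ℕ) (y : ℤ) : ℤ :=
  ∑ k ∈ Finset.range (S / 2),
    (ind E (r * S * (s * ((i + 1 + 2 * k : ℕ) : ℤ) + 1) + s * S - y) -
      ind E (r * S * (s * ((i + 1 + 2 * k : ℕ) : ℤ) + 1) - s * S - y) -
      ind E (r * S * (s * ((i + 1 + 2 * k : ℕ) : ℤ) - 1) + s * S - y) +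
      ind E (r * S * (s * ((i + 1 + 2 * k : ℕ) : ℤ) - 1) - s * S - y))

/-- the Laurent polynomial of the virtual increment with `p = 1` -/
noncomputable def gLV (ϱ : ℤ) (s S i : ℕ) : LaurentPolynomial FF :=
  ∑ k ∈ Finset.range (S / 2),
    (LaurentPolynomial.C
        (t ^ (ϱ * s * ((i + 1 + 2 * k : ℕ) : ℤ) ^ 2 + 2 * ϱ * ((i + 1 + 2 * k : ℕ) : ℤ))) *
        LaurentPolynomial.T (ϱ * S * (s * ((i + 1 + 2 * k : ℕ) : ℤ) + 1)) -
      LaurentPolynomial.C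
        (t ^ (ϱ * s * ((i + 1 + 2 * k : ℕ) : ℤ) ^ 2 - 2 * ϱ * ((i + 1 + 2 * k : ℕ) : ℤ))) *
        LaurentPolynomial.T (ϱ * S * (s * ((i + 1 + 2 * k : ℕ) : ℤ) - 1)))

/-- brackets as Laurent polynomials -/
noncomputable def brL (S : ℕ) (c : ℤ) : LaurentPolynomial FF :=
  LaurentPolynomial.C (t ^ (2 * c)) * LaurentPolynomial.T (S : ℤ) -
    LaurentPolynomial.C (t ^ (-(2 * c))) * LaurentPolynomial.T (-(S : ℤ))

/-- the Laurent polynomial of the torus knot increment -/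
noncomputable def gLT (r : ℤ) (s S i : ℕ) : LaurentPolynomial FF :=
  ∑ k ∈ Finset.range (S / 2),
    (LaurentPolynomial.C
        (t ^ (r * s * ((i + 1 + 2 * k : ℕ) : ℤ) ^ 2 + 2 * r * ((i + 1 + 2 * k : ℕ) : ℤ))) *
        LaurentPolynomial.T (r * S * (s * ((i + 1 + 2 * k : ℕ) : ℤ) + 1)) *
        brL (s * S) (s * ((i + 1 + 2 * k : ℕ) : ℤ) + 1) -
      LaurentPolynomial.C
        (t ^ (r * s * ((i + 1 + 2 * k : ℕ) : ℤ) ^ 2 - 2 * r * ((i + 1 + 2 * k : ℕ) : ℤ))) *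
        LaurentPolynomial.T (r * S * (s * ((i + 1 + 2 * k : ℕ) : ℤ) - 1)) *
        brL (s * S) (s * ((i + 1 + 2 * k : ℕ) : ℤ) - 1))

def S_LamVir : Prop := ∀ (ϱ : ℤ) (s S i : ℕ) (y : ℤ), ϱ ≠ 0 → 2 ≤ s → 0 < S →
  Lam (ϱ * s * (S : ℤ) ^ 2) y (gLV ϱ s S i) =
    (NV (ϱ * s * (S : ℤ) ^ 2) ϱ s S i y : FF) *
      t ^ ((y ^ 2 - ϱ ^ 2 * (S : ℤ) ^ 2) / (ϱ * s * (S : ℤ) ^ 2))

def S_LamTor : Prop := ∀ (r : ℤ) (s S i : ℕ) (y : ℤ), r ≠ 0 → 2 ≤ s → 0 < S →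
  Lam (r * s * (S : ℤ) ^ 2) y (gLT r s S i) =
    (NT (r * s * (S : ℤ) ^ 2) r s S i y : FF) *
      t ^ ((y ^ 2 - (r ^ 2 + (s : ℤ) ^ 2) * (S : ℤ) ^ 2) / (r * s * (S : ℤ) ^ 2))

/-- parity and separation of the virtual classes -/
def S_NVComb : Prop := ∀ (ϱ : ℤ) (s S i : ℕ), ϱ ≠ 0 → 2 ≤ s → 0 < S → Even S → i < 2 →
  (∀ y, NV (ϱ * s * (S : ℤ) ^ 2) ϱ s S i (-y) = -NV (ϱ * s * (S : ℤ) ^ 2) ϱ s S i y) ∧
  ∃ y, NV (ϱ * s * (S : ℤ) ^ 2) ϱ s S i y ≠ 0 ∧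
    (s ≠ 2 → NV (ϱ * s * (S : ℤ) ^ 2) ϱ s S (1 - i) y = 0)

def S_NTEven : Prop := ∀ (r : ℤ) (s S i : ℕ) (y : ℤ), r ≠ 0 → 2 ≤ s → 0 < S → Even S → i < 2 →
  NT (r * s * (S : ℤ) ^ 2) r s S i (-y) = NT (r * s * (S : ℤ) ^ 2) r s S i y

/-- torus knot parameters with a scale and an index -/
structure Tor where
  r : ℤ
  s : ℕ
  S : ℕ
  i : ℕ
  hs : 2 ≤ s
  hco : IsCoprime r (s : ℤ)
  hr : (s : ℤ) < |r|
  hS : 0 < S
  hS2 : Even S
  hi : i < 2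
  h2 : s = 2 → i = 0

def Tor.E (w : Tor) : ℤ := w.r * w.s * (w.S : ℤ) ^ 2

def Tor.y (w : Tor) : ℤ :=
  if w.i = 1 ∨ w.s = 2 then w.S * (|w.r| - w.s) else w.S * (|w.r| * w.s + |w.r| - w.s)

def Tor.rk (w : Tor) : ℤ :=
  if w.i = 1 ∨ w.s = 2 then |w.r| - w.s else |w.E| + (|w.r| - w.s)

/-- triangularity of the torus knot classes -/
def S_TorComb : Prop := ∀ w : Tor,
  NT w.E w.r w.s w.S w.i w.y ≠ 0 ∧
  ∀ w' : Tor, w'.E = w.E → NT w.E w'.r w'.s w'.S w'.i w.y ≠ 0 → w' ≠ w → w'.rk < w.rk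

/-- independence in one degree of `h` -/
def S_BaseE : Prop := ∀ (E : ℤ) (S₁ : ℕ), E ≠ 0 →
  ∀ (c : Vir (lv 0) S₁ ⊕ Var (lv 0) →₀ FF),
  (∀ v, c v ≠ 0 → (match v with
    | .inl v => v.ϱ * v.s * (v.S : ℤ) ^ 2
    | .inr w => w.P.r * w.P.s * (w.S : ℤ) ^ 2) = E) →
  ∀ b : KK, (c.sum fun v a => RatFunc.C a * (match v with
    | .inl v => gK v.ϱ v.s v.S v.i v.p
    | .inr w => gK w.P.r w.P.s w.S w.i 0)) = tK ^ E * xK ^ E * sK b - b → c = 0

def S_BaseInd : Prop := ∀ S₁ : ℕ, IndepMod s0 (gfam D0 J0 S₁)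

def S_CoreBase : Prop := Core (lv 0) A0 D0 s0 J0

end AJG
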