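import Pool.Agent.Work.MP_d3fa71_gt.StmtsC

/-!
# MP_d3fa71_gt: lower bound (block C): realisation in germs, values at `t = 1`, the tower
-/

open Polynomial

namespace AJG

/-! ## The actual sequences -/

/-- `[n] = t^{2n} - t^{-2n}`. -/
noncomputable def brF (n : ℤ) : FF := t ^ (2 * n) - t ^ (-(2 * n))

/-- The cabling formula for `Ĵ = [n] J`, applied to a sequence `f` (extended as an odd
function). -/
noncomputable def JhatP (f : ℕ → FF) (r : ℤ) (s n : ℕ) : FF :=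
  t ^ (r * s * (1 - (n : ℤ) ^ 2)) * ∑ k ∈ Finset.range n,
    t ^ (r * s * (2 * (k : ℤ) - n + 1) ^ 2 + 2 * r * (2 * (k : ℤ) - n + 1)) *
      (((s * (2 * (k : ℤ) - n + 1) + 1).sign : ℤ) : FF) *
      f (s * (2 * (k : ℤ) - n + 1) + 1).natAbs

/-- `Ĵ` on the next level. -/
noncomputable def nextJh {L : Lv} (Jh : L.K → ℕ → FF) : L.next.K → ℕ → FF :=
  fun κ n => Jh κ.1 n * (κ.2.map fun P => JhatP (Jh P.κ) P.r P.s n / brF n).prod

/-- `Ĵ` on all levels. -/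
noncomputable def Jh : (ℓ : ℕ) → (lv ℓ).K → ℕ → FF
  | 0 => fun _ n => brF n
  | ℓ + 1 => nextJh (L := lv ℓ) (Jh ℓ)

/-- the two step recurrence -/
def S_RecTwo : Prop := ∀ (f : ℕ → FF) (r : ℤ) (s : ℕ), 2 ≤ s → ∀ m : ℕ,
  JhatP f r s (m + 2) = t ^ (-(4 * r * s * (m + 1))) * JhatP f r s m +
    t ^ (-(2 * r * s * (m + 1))) * (t ^ (2 * r * (m + 1)) * f (s * (m + 1) + 1) -
      t ^ (-(2 * r * (m + 1))) * f (s * (m + 1) - 1))

/-- the one step recurrence for `s = 2` -/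
def S_RecOne : Prop := ∀ (f : ℕ → FF) (r : ℤ) (m : ℕ),
  JhatP f r 2 (m + 1) = -t ^ (-(2 * r * (2 * m + 1))) * JhatP f r 2 m +
    t ^ (-(2 * r * m)) * f (2 * m + 1)

/-- `JP` is characterised by the recurrences. -/
def S_RecChar : Prop := ∀ (R : Type) [CommRing R] (D : Dat R) (L : Lv) (J : L.K → ℕ → ℕ → R)
  (P : PT L) (S : ℕ) (Y : ℕ → R) (b : ℕ → ℕ → R), 0 < S → Even S →
  (P.s ≠ 2 → ∀ c : ℕ, Y (c + 2) =
    ((D.t ^ (-(4 * P.r * P.s * (c + 1))) * D.x ^ (-(2 * P.r * P.s * S)) : Rˣ) : R) * Y c +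
    ((D.t ^ (-(2 * P.r * P.s * (c + 1)) + 2 * P.r * (c + 1)) *
      D.x ^ (-(P.r * P.s * S) + P.r * S) : Rˣ) : R) * J P.κ (P.s * S) (P.s * (c + 1) + 1) -
    ((D.t ^ (-(2 * P.r * P.s * (c + 1)) - 2 * P.r * (c + 1)) *
      D.x ^ (-(P.r * P.s * S) - P.r * S) : Rˣ) : R) * J P.κ (P.s * S) (P.s * (c + 1) - 1)) →
  (P.s = 2 → ∀ c : ℕ, Y (c + 1) =
    -((D.t ^ (-(2 * P.r * (2 * c + 1))) * D.x ^ (-(2 * P.r * S)) : Rˣ) : R) * Y c +
    ((D.t ^ (-(2 * P.r * c)) * D.x ^ (-(P.r * S)) : Rˣ) : R) * J P.κ (2 * S) (2 * c + 1)) →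
  (∀ i : ℕ, i < 2 → b S i =
    ((D.t ^ (P.r * P.s * (i : ℤ) ^ 2) * D.h ^ (P.r * P.s * (S : ℤ) ^ 2) *
      D.x ^ (P.r * P.s * S * i) : Rˣ) : R) * Y i) →
  ∀ c : ℕ, JP D J b P S c = Y c

/-- naturality of `nextJ` -/
def S_NextNat : Prop := ∀ (R R' : Type) [CommRing R] [CommRing R'] (φ : R →+* R') (D : Dat R)
  (L : Lv) (J : L.K → ℕ → ℕ → R) (J' : L.K → ℕ → ℕ → R') (b : PT L → ℕ → ℕ → R)
  (b' : PT L → ℕ → ℕ → R'),
  (∀ κ S c, 0 < S → Even S → φ (J κ S c) = J' κ S c) →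
  (∀ (P : PT L) S i, 0 < S → Even S → i < 2 → (P.s = 2 → i = 0) → φ (b P S i) = b' P S i) →
  ∀ (κ : L.next.K) S c, 0 < S → Even S →
    φ (nextJ D J b κ S c) = nextJ (D.map φ) J' b' κ S c

/-! ## Germs -/

/-- Germs at infinity of sequences in `ℚ(t)`. -/
abbrev GG : Type := Filter.Germ (Filter.atTop : Filter ℕ) FF

/-- the germ of a sequence -/
noncomputable def gm (f : ℕ → FF) : GG := (f : GG)

/-- invertible germs -/
noncomputable def unitG (f : ℕ → FF) (hf : ∀ n, f n ≠ 0) : GGˣ where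
  val := gm f
  inv := gm fun n => (f n)⁻¹
  val_inv := by
    show gm f * gm (fun n => (f n)⁻¹) = 1
    refine Filter.Germ.coe_eq.2 (Filter.Eventually.of_forall fun n => ?_)
    simp [hf n]
  inv_val := by
    show gm (fun n => (f n)⁻¹) * gm f = 1
    refine Filter.Germ.coe_eq.2 (Filter.Eventually.of_forall fun n => ?_)
    simp [hf n]

/-- the shift on germs -/
noncomputable def EG : GG →+* GG where
  toFun g := g.compTendsto (fun n : ℕ => n + 1) (Filter.tendsto_add_atTop_nat 1)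
  map_one' := rfl
  map_mul' a b := by
    induction a using Filter.Germ.inductionOn
    induction b using Filter.Germ.inductionOn
    rfl
  map_zero' := rfl
  map_add' a b := by
    induction a using Filter.Germ.inductionOn
    induction b using Filter.Germ.inductionOn
    rfl

/-- the data on germs -/
noncomputable def DG : Dat GG where
  t := unitG (fun _ => t) fun _ => t_ne
  x := unitG (fun n => t ^ (2 * n)) fun _ => pow_ne_zero _ t_ne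
  h := unitG (fun n => t ^ (n ^ 2)) fun _ => pow_ne_zero _ t_ne
  ib := fun S c => if S = 0 then 0 else gm fun n => (brF ((S * n + c : ℕ) : ℤ))⁻¹

/-- the values on germs -/
noncomputable def JG {K : Type} (J : K → ℕ → FF) (κ : K) (S c : ℕ) : GG :=
  gm fun n => J κ (S * n + c)

def S_GermData : Prop := DG.Ok ∧ (∀ f : ℕ → FF, EG (gm f) = gm fun n => f (n + 1)) ∧
  (EG DG.x = (DG.t : GG) ^ 2 * DG.x) ∧ (EG DG.h = (DG.t : GG) * DG.x * DG.h) ∧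
  Function.Injective EG

/-- the values of the next level on germs -/
def S_GermNext : Prop := ∀ (L : Lv) (J : L.K → ℕ → FF) (κ : L.next.K) (S c : ℕ), 0 < S → Even S →
  nextJ DG (JG J) (fun P S i => gm fun n =>
    t ^ (P.r * P.s * ((S * n + i : ℕ) : ℤ) ^ 2) * JhatP (J P.κ) P.r P.s (S * n + i)) κ S c =
  JG (nextJh J) κ S c

/-- A realisation in germs. -/
structure GReal (L : Lv) (Jl : L.K → ℕ → FF) (A : Type) [CommRing A] [Algebra FF A] (D : Dat A)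
    (σ : A →+* A) (J : L.K → ℕ → ℕ → A) (Ψ : A →+* GG) : Prop where
  sc : ∀ c : FF, Ψ (algebraMap FF A c) = gm fun _ => c
  comm : ∀ a : A, Ψ (σ a) = EG (Ψ a)
  data : D.map Ψ = DG
  val : ∀ (κ : L.K) (S c : ℕ), 0 < S → Even S → Ψ (J κ S c) = JG Jl κ S c

def S_GBase : Prop := ∃ Ψ : A0 →+* GG, GReal (lv 0) (Jh 0) A0 D0 s0 J0 Ψ

def S_GNext : Prop := ∀ (L : Lv) (Jl : L.K → ℕ → FF) (A : Type) [CommRing A] [Algebra FF A]
  (D : Dat A) (σ : A →+* A) (J : L.K → ℕ → ℕ → A) (Ψ : A →+* GG), Core L A D σ J →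
  GReal L Jl A D σ J Ψ →
  ∃ Ψ' : MvPolynomial (Var L) A →+* GG,
    GReal L.next (nextJh Jl) (MvPolynomial (Var L) A) (nextD D) (sext σ (gvar D J)) (extJ D J) Ψ'

/-! ## Values at `t = 1` -/

/-- The group of labels. -/
abbrev ZZ : Type := ℤˣ × Multiplicative ℤ

/-- the data at `t = 1`, `X = τ`, `h = 1` -/
noncomputable def DR (τ : ℝ) (hτ : 1 < τ) : Dat ℝ where
  t := 1
  x := Units.mk0 τ (by positivity)
  h := 1
  ib := fun S _ => (τ ^ S - (τ ^ S)⁻¹)⁻¹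

/-- the characters -/
noncomputable def th (τ h₀ : ℝ) (η : ℤˣ) (S c : ℕ) (z : ZZ) : ℝ :=
  ((z.1 : ℤ) : ℝ) * (if z.1 = 1 then 1 else ((η : ℤ) : ℝ) ^ (S / 2)) *
    h₀ ^ (z.2.toAdd * ((S / 2 : ℕ) : ℤ) ^ 2) * (((z.1 : ℤ) : ℝ) * τ ^ (z.2.toAdd * S)) ^ c

/-- the label coefficients of a prime over a level -/
noncomputable def cfP {L : Lv} (τ : ℝ) (cf : L.K → ℕ → MonoidAlgebra ℝ ZZ) (P : PT L) (S : ℕ) :
    MonoidAlgebra ℝ ZZ :=
  (if P.s = 2 then MonoidAlgebra.single (-1, Multiplicative.ofAdd (-(P.r * P.s))) 1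
    else MonoidAlgebra.single (1, Multiplicative.ofAdd (-(P.r * P.s))) 1 +
      MonoidAlgebra.single (-1, Multiplicative.ofAdd (-(P.r * P.s))) 1) +
  (cf P.κ (P.s * S)).coeff.sum fun z a =>
    MonoidAlgebra.single (z.1 ^ P.s, z.2 ^ (P.s ^ 2))
      (a * ((τ ^ (S * (P.r + z.2.toAdd * P.s)) - τ ^ (-(S * (P.r + z.2.toAdd * P.s)))) /
        (τ ^ (S * (P.r + z.2.toAdd * P.s) * P.s) - τ ^ (-(S * (P.r + z.2.toAdd * P.s) * P.s)))))

/-- the label coefficients of the next level -/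
noncomputable def nextcf {L : Lv} (τ : ℝ) (cf : L.K → ℕ → MonoidAlgebra ℝ ZZ) :
    L.next.K → ℕ → MonoidAlgebra ℝ ZZ :=
  fun κ S => cf κ.1 S * (κ.2.map fun P =>
    MonoidAlgebra.single 1 ((τ ^ S - (τ ^ S)⁻¹)⁻¹) * cfP τ cf P S).prod

/-- the label coefficients on all levels -/
noncomputable def cfl (τ : ℝ) : (ℓ : ℕ) → (lv ℓ).K → ℕ → MonoidAlgebra ℝ ZZ
  | 0 => fun _ S => MonoidAlgebra.single 1 (τ ^ S - (τ ^ S)⁻¹)
  | ℓ + 1 => nextcf (L := lv ℓ) τ (cfl τ ℓ)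

/-- the value with given label coefficients -/
noncomputable def JR (τ h₀ : ℝ) (η : ℤˣ) {K : Type} (cf : K → ℕ → MonoidAlgebra ℝ ZZ) (κ : K)
    (S c : ℕ) : ℝ := (cf κ S).coeff.sum fun z a => a * th τ h₀ η S c z

/-- the values of the next level at `t = 1` -/
def S_RealNext : Prop := ∀ (τ h₀ : ℝ) (hτ : 1 < τ) (η : ℤˣ), 0 < h₀ → ∀ (L : Lv)
  (cf : L.K → ℕ → MonoidAlgebra ℝ ZZ) (κ : L.next.K) (S c : ℕ), 0 < S → Even S →
  nextJ (DR τ hτ) (JR τ h₀ η cf)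
    (fun P S i => τ ^ (P.r * P.s * S * i) * JR τ h₀ η (fun P S => cfP τ cf P S) P S i) κ S c =
  JR τ h₀ η (nextcf τ cf) κ S c

/-- labels of a prime over a level -/
def labP {L : Lv} (lab : L.K → Finset ZZ) (P : PT L) : Finset ZZ :=
  (if P.s = 2 then {((-1 : ℤˣ), Multiplicative.ofAdd (-(P.r * (P.s : ℤ))))}
    else {((1 : ℤˣ), Multiplicative.ofAdd (-(P.r * (P.s : ℤ)))),
      ((-1 : ℤˣ), Multiplicative.ofAdd (-(P.r * (P.s : ℤ))))}) ∪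
  (lab P.κ).image fun z => (z.1 ^ P.s, z.2 ^ (P.s ^ 2))

open scoped Pointwise in
/-- labels of the next level -/
def nextlab {L : Lv} (lab : L.K → Finset ZZ) : L.next.K → Finset ZZ :=
  fun κ => lab κ.1 * (κ.2.map fun P => labP lab P).prod

/-- labels on all levels -/
def labl : (ℓ : ℕ) → (lv ℓ).K → Finset ZZ
  | 0 => fun _ => {1}
  | ℓ + 1 => nextlab (L := lv ℓ) (labl ℓ)

/-- positivity and support of the label coefficients -/
def S_Supp : Prop := ∀ (τ : ℝ), 1 < τ → ∀ (ℓ : ℕ) (κ : (lv ℓ).K) (S : ℕ), 0 < S →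
  (∀ z, 0 ≤ (cfl τ ℓ κ S).coeff z) ∧ ∀ z, (cfl τ ℓ κ S).coeff z ≠ 0 ↔ z ∈ labl ℓ κ

/-- Values at `t = 1` through a ring `O` inside `A`. -/
def OReal (L : Lv) (cf : ℝ → L.K → ℕ → MonoidAlgebra ℝ ZZ) (A : Type) [CommRing A] (D : Dat A)
    (J : L.K → ℕ → ℕ → A) : Prop :=
  ∃ (O : Type) (_ : CommRing O) (DO : Dat O) (JO : L.K → ℕ → ℕ → O) (j : O →+* A),
    Function.Injective j ∧ DO.map j = D ∧ (∀ κ S c, 0 < S → Even S → j (JO κ S c) = J κ S c) ∧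
    ∀ (τ h₀ : ℝ) (hτ : 1 < τ) (η : ℤˣ), 0 < h₀ → Transcendental ℚ τ →
      ∃ φ : O →+* ℝ, DO.map φ = DR τ hτ ∧
        ∀ κ S c, 0 < S → Even S → φ (JO κ S c) = JR τ h₀ η (cf τ) κ S c

def S_OBase : Prop := OReal (lv 0) (fun τ => cfl τ 0) A0 D0 J0

def S_ONext : Prop := ∀ (L : Lv) (cf : ℝ → L.K → ℕ → MonoidAlgebra ℝ ZZ) (A : Type) [CommRing A]
  (D : Dat A) (J : L.K → ℕ → ℕ → A), OReal L cf A D J →
  OReal L.next (fun τ => nextcf τ (cf τ)) (MvPolynomial (Var L) A) (nextD D) (extJ D J)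

/-- The tower. -/
def S_Tower : Prop := ∀ ℓ : ℕ, ∃ (A : Type) (_ : CommRing A) (_ : Algebra FF A) (D : Dat A)
  (σ : A →+* A) (J : (lv ℓ).K → ℕ → ℕ → A), Core (lv ℓ) A D σ J ∧
  (∃ Ψ : A →+* GG, GReal (lv ℓ) (Jh ℓ) A D σ J Ψ) ∧ OReal (lv ℓ) (fun τ => cfl τ ℓ) A D J

/-- graph knots as elements of the levels -/
def S_Embed : Prop := ∀ K : GK, K.Valid → ∃ (ℓ : ℕ) (κ : (lv ℓ).K),
  (∀ n : ℕ, 1 ≤ n → Jh ℓ κ n = brF n * K.J n) ∧
  ∀ z : ℤˣ × ℤ, z ∈ K.Lab ↔ (z.1, Multiplicative.ofAdd z.2) ∈ labl ℓ κ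

/-- independence of the characters: all labels are roots -/
def S_CharInd : Prop := ∀ (τ : ℝ), 1 < τ → ∀ (ℓ : ℕ) (κ : (lv ℓ).K) (n : ℕ) (a : ℕ → ℝ),
  (∀ (h₀ : ℝ) (η : ℤˣ), 0 < h₀ →
    ∑ j ∈ Finset.range n, a j * JR τ h₀ η (cfl τ ℓ) κ 2 j = 0) →
  ∀ z ∈ labl ℓ κ, ∑ j ∈ Finset.range n,
    a j * (((z.1 : ℤ) : ℝ) * τ ^ (2 * z.2.toAdd)) ^ j = 0

end AJG
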