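import Pool.Agent.Work.MP_d3fa71_gt.StmtsB

/-!
# MP_d3fa71_gt: item NCAEx, existence of the non-commutative A-polynomial
-/

open Polynomial

namespace AJG

lemma NCAEx_noeth (R : Type) [CommRing R] [IsNoetherianRing R] :
    IsNoetherianRing (LaurentPolynomial R) :=
  IsLocalization.isNoetherianRing (Submonoid.powers (X : R[X])) (LaurentPolynomial R) inferInstance

theorem NCAEx_proof : S_NCAEx := by
  classical
  intro f γ hγ hk
  have : IsNoetherianRing (LaurentPolynomial ℤ) := NCAEx_noeth ℤ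
  have : IsNoetherianRing R2 := NCAEx_noeth (LaurentPolynomial ℤ)
  have : WfDvdMonoid R2 := IsNoetherianRing.wfDvdMonoid
  have hex : ∃ m : ℕ, ∃ β : Polynomial R2, β ≠ 0 ∧ Kills β f ∧ β.natDegree = m :=
    ⟨_, γ, hγ, hk, rfl⟩
  obtain ⟨β, hβ0, hβk, hβd⟩ := Nat.find_spec hex
  have hmin : ∀ β' : Polynomial R2, β' ≠ 0 → Kills β' f → β.natDegree ≤ β'.natDegree := by
    intro β' h0 hk'
    rw [hβd]
    exact Nat.find_min' hex ⟨β', h0, hk', rfl⟩
  obtain ⟨l, ⟨α, ⟨d, hd0, hd⟩, hl⟩, hlmin⟩ :=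
    (wellFounded_dvdNotUnit (α := R2)).has_min
      {l : R2 | ∃ α : Polynomial R2, (∃ d : R2, d ≠ 0 ∧ C d * α = β) ∧ α.leadingCoeff = l}
      ⟨β.leadingCoeff, β, ⟨1, one_ne_zero, by rw [map_one, one_mul]⟩, rfl⟩
  have hα0 : α ≠ 0 := by
    rintro rfl
    rw [mul_zero] at hd
    exact hβ0 hd.symm
  refine ⟨α, hα0, ⟨d, hd0, by rw [hd]; exact hβk⟩, ?_, ?_⟩
  · intro β' h0 hk'
    have h1 : α.natDegree = β.natDegree := by
      rw [← hd, natDegree_C_mul hd0]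
    rw [h1]
    exact hmin β' h0 hk'
  · intro e he
    obtain ⟨α', hα'⟩ := (C_dvd_iff_dvd_coeff e α).2 he
    have he0 : e ≠ 0 := by
      rintro rfl
      rw [map_zero, zero_mul] at hα'
      exact hα0 hα'
    have hα'0 : α' ≠ 0 := by
      rintro rfl
      rw [mul_zero] at hα'
      exact hα0 hα'
    by_contra hu
    refine hlmin α'.leadingCoeff ⟨α', ⟨d * e, mul_ne_zero hd0 he0, ?_⟩, rfl⟩ ?_
    · rw [map_mul, mul_assoc, ← hα', hd]
    · refine ⟨leadingCoeff_ne_zero.2 hα'0, e, hu, ?_⟩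
      rw [← hl, hα', leadingCoeff_mul, leadingCoeff_C, mul_comm]

end AJG
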