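import Pool.Agent.Work.MP_d3fa71_gt.Bd.B01
import Pool.Agent.Work.MP_d3fa71_gt.Bd.B02
import Pool.Agent.Work.MP_d3fa71_gt.Bd.B03
import Pool.Agent.Work.MP_d3fa71_gt.Bd.B04
import Pool.Agent.Work.MP_d3fa71_gt.I_NCAEx

namespace AJG

theorem EigComm_thm : S_EigComm := EigComm_proof 
theorem SqOne_thm : S_SqOne := SqOne_proof 
theorem Conj_thm : S_Conj := Conj_proof 
theorem Trace_thm : S_Trace := Trace_proof Conj_thm
theorem DiagRoot_thm : S_DiagRoot := DiagRoot_proof 
theorem VRoot_thm : S_VRoot := VRoot_proof 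
theorem CableHom_thm : S_CableHom := CableHom_proof 
theorem CableRes_thm : S_CableRes := CableRes_proof 
theorem SumHom_thm : S_SumHom := SumHom_proof 
theorem SumRes_thm : S_SumRes := SumRes_proof 
theorem PerComm_thm : S_PerComm := PerComm_proof 
theorem Central_thm : S_Central := Central_proof CableRes_thm SumRes_thm PerComm_thm
theorem Up_thm : S_Up := Up_proof EigComm_thm SqOne_thm CableRes_thm SumRes_thm PerComm_thm Central_thm
theorem Abel_thm : S_Abel := Abel_proof CableHom_thm SumHom_thm
theorem New_thm : S_New := New_proof PerComm_thm VRoot_thm Trace_thm Conj_thm CableHom_thm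
theorem NewAll_thm : S_NewAll := NewAll_proof New_thm Abel_thm DiagRoot_thm SumHom_thm
theorem Down_thm : S_Down := Down_proof NewAll_thm CableHom_thm SumHom_thm
theorem Closure_thm : S_Closure := Closure_proof Up_thm Down_thm
theorem ADiv_thm : S_ADiv := ADiv_proof 
theorem AEx_thm : S_AEx := AEx_proof 
theorem NDiv_thm : S_NDiv := NDiv_proof 
theorem SpNe_thm : S_SpNe := SpNe_proof 
theorem EvNe_thm : S_EvNe := EvNe_proof 
theorem NCAEv_thm : S_NCAEv := NCAEv_proof EvNe_thm
theorem SimpleExt_thm : S_SimpleExt := SimpleExt_proof 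
theorem IndStep_thm : S_IndStep := IndStep_proof 
theorem Shift_thm : S_Shift := Shift_proof 
theorem TopCoeff_thm : S_TopCoeff := TopCoeff_proof 
theorem IndNext_thm : S_IndNext := IndNext_proof IndStep_thm TopCoeff_thm
theorem CoreNext_thm : S_CoreNext := CoreNext_proof SimpleExt_thm Shift_thm IndNext_thm
theorem BaseData_thm : S_BaseData := BaseData_proof 
theorem BaseSimple_thm : S_BaseSimple := BaseSimple_proof 
theorem BaseConst_thm : S_BaseConst := BaseConst_proof 
theorem gK_thm : S_gK := gK_proof 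
theorem Pole_thm : S_Pole := Pole_proof 
theorem Elim_thm : S_Elim := Elim_proof Pole_thm
theorem LamInv_thm : S_LamInv := LamInv_proof 
theorem LamVir_thm : S_LamVir := LamVir_proof 
theorem LamTor_thm : S_LamTor := LamTor_proof 
theorem NVComb_thm : S_NVComb := NVComb_proof 
theorem NTEven_thm : S_NTEven := NTEven_proof 
theorem TorComb_thm : S_TorComb := TorComb_proof 
theorem BaseE_thm : S_BaseE := BaseE_proof Elim_thm LamInv_thm LamVir_thm LamTor_thm NVComb_thm NTEven_thm TorComb_thm
theorem BaseInd_thm : S_BaseInd := BaseInd_proof gK_thm BaseE_thm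
theorem CoreBase_thm : S_CoreBase := CoreBase_proof BaseData_thm BaseSimple_thm BaseConst_thm BaseInd_thm
theorem RecTwo_thm : S_RecTwo := RecTwo_proof 
theorem RecOne_thm : S_RecOne := RecOne_proof 
theorem RecChar_thm : S_RecChar := RecChar_proof 
theorem NextNat_thm : S_NextNat := NextNat_proof 
theorem GermData_thm : S_GermData := GermData_proof 
theorem GermNext_thm : S_GermNext := GermNext_proof RecTwo_thm RecOne_thm RecChar_thm
theorem GBase_thm : S_GBase := GBase_proof GermData_thm
theorem GNext_thm : S_GNext := GNext_proof RecTwo_thm GermNext_thm NextNat_thm GermData_thm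
theorem RealNext_thm : S_RealNext := RealNext_proof RecChar_thm
theorem Supp_thm : S_Supp := Supp_proof 
theorem OBase_thm : S_OBase := OBase_proof 
theorem ONext_thm : S_ONext := ONext_proof NextNat_thm RealNext_thm
theorem Tower_thm : S_Tower := Tower_proof CoreBase_thm CoreNext_thm GBase_thm GNext_thm OBase_thm ONext_thm
theorem Embed_thm : S_Embed := Embed_proof 
theorem CharInd_thm : S_CharInd := CharInd_proof Supp_thm
theorem AR_thm : S_AR := AR_proof 
theorem Gauss_thm : S_Gauss := Gauss_proof 
theorem Prod_thm : S_Prod := Prod_proof 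
theorem UBind_thm : S_UBind := UBind_proof Prod_thm
theorem Jq_thm : S_Jq := Jq_proof 
theorem Desc_thm : S_Desc := Desc_proof 
theorem NCAEx_thm : S_NCAEx := NCAEx_proof 
theorem R2Pl_thm : S_R2Pl := R2Pl_proof 
theorem OO_thm : S_OO := OO_proof 
theorem LB_thm : S_LB := LB_proof Tower_thm Embed_thm CharInd_thm GermData_thm
theorem KillPl_thm : S_KillPl := KillPl_proof OO_thm AR_thm UBind_thm RecTwo_thm RecOne_thm GermData_thm
theorem GaussPl_thm : S_GaussPl := GaussPl_proof OO_thm Gauss_thm Desc_thm R2Pl_thm NCAEv_thm SpNe_thm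
theorem UB_thm : S_UB := UB_proof KillPl_thm GaussPl_thm Jq_thm
theorem EX_thm : S_EX := EX_proof KillPl_thm Desc_thm NCAEx_thm Jq_thm
theorem Main_thm : S_Main := Main_proof Closure_thm AEx_thm ADiv_thm NDiv_thm SpNe_thm NCAEv_thm EX_thm UB_thm LB_thm

end AJG
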