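import Mathlib

/-!
# MP_d3fa71_gt: the AJ conjecture for graph knots: definitions

Graph knots are the knots obtained from the unknot by coprime cabling and connected sums.
For each of them we define the coloured Jones function (standard cabling formula,
multiplicativity), the peripheral group system (Seifert-van Kampen presentations),
the A-polynomial and the non-commutative A-polynomial.
-/

open Polynomial

namespace AJG

/-! ## Graph knots -/

/-- Graph knots: `cable r s K` is the `(r, s)`-cable of `K` with winding number `s`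
(homologous to `r μ + s λ` on the boundary of a tubular neighbourhood of `K`),
`sum K L` is the connected sum. -/
inductive GK : Type
  | unknot : GK
  | cable (r : ℤ) (s : ℕ) (K : GK) : GK
  | sum (K L : GK) : GK

namespace GK

/-- A (connected sum of) trivial knot(s). -/
def Triv : GK → Prop
  | unknot => True
  | cable _ _ _ => False
  | sum K L => K.Triv ∧ L.Triv

/-- The cabling parameters are coprime with winding number `s ≥ 2`; cables of the trivial knot
are the torus knots `T(r, s)`, listed once each with `|r| > s ≥ 2`. -/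
def Valid : GK → Prop
  | unknot => True
  | cable r s K => K.Valid ∧ 2 ≤ s ∧ IsCoprime r (s : ℤ) ∧ (K.Triv → (s : ℤ) < |r|)
  | sum K L => K.Valid ∧ L.Valid

end GK

/-! ## The coloured Jones function -/

/-- The variable `t = q^{1/4}`. -/
noncomputable def t : RatFunc ℚ := RatFunc.X

/-- The coloured Jones function `J_K(n)`, `n ≥ 1`, normalised by `J_unknot(n) = 1`, `q = t ^ 4`:
`[n] J_C(n) = t^{rs(1-n²)} ∑_{j = -n+1, -n+3, ..., n-1} t^{rsj²+2rj} [sj+1] J_K(|sj+1|)` for the
`(r,s)`-cable `C` of `K`, with `[m] = t^{2m} - t^{-2m}`, and `J_{K # L} = J_K J_L`. -/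
noncomputable def GK.J : GK → ℕ → RatFunc ℚ
  | .unknot, _ => 1
  | .cable r s K, n =>
      t ^ (r * s * (1 - (n : ℤ) ^ 2)) / (t ^ (2 * (n : ℤ)) - t ^ (-(2 * (n : ℤ)))) *
        ∑ k ∈ Finset.range n,
          t ^ (r * s * (2 * (k : ℤ) - n + 1) ^ 2 + 2 * r * (2 * (k : ℤ) - n + 1)) *
          (t ^ (2 * (s * (2 * (k : ℤ) - n + 1) + 1)) -
            t ^ (-(2 * (s * (2 * (k : ℤ) - n + 1) + 1)))) *
          GK.J K (s * (2 * (k : ℤ) - n + 1) + 1).natAbs
  | .sum K L, n => GK.J K n * GK.J L n

/-! ## The non-commutative A-polynomial -/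

/-- `ℤ[q^{±1}, Q^{±1}]`: inner variable `q`, outer variable `Q`. -/
abbrev R2 : Type := LaurentPolynomial (LaurentPolynomial ℤ)

/-- `q ↦ t ^ 4`. -/
noncomputable def evq : LaurentPolynomial ℤ →+* RatFunc ℚ :=
  LaurentPolynomial.eval₂ (Int.castRingHom (RatFunc ℚ))
    (Units.mk0 (t ^ 4) (pow_ne_zero 4 RatFunc.X_ne_zero))

/-- The value of a coefficient at `n`: `q ↦ t ^ 4`, `Q ↦ q ^ n = t ^ {4 n}`. -/
noncomputable def ev (n : ℕ) : R2 →+* RatFunc ℚ :=
  LaurentPolynomial.eval₂ evq
    (Units.mk0 (t ^ (4 * n)) (pow_ne_zero (4 * n) RatFunc.X_ne_zero))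

/-- The operator `α = ∑ α_j(q, Q) E ^ j` kills the sequence `f` : `ℕ → ℚ(t)` on `n ≥ 1`,
where `(Q f)(n) = q ^ n f(n)` and `(E f)(n) = f(n + 1)`. -/
def Kills (α : Polynomial R2) (f : ℕ → RatFunc ℚ) : Prop :=
  ∀ n : ℕ, 1 ≤ n → ∑ j ∈ Finset.range (α.natDegree + 1), ev n (α.coeff j) * f (n + j) = 0

/-- `α` is a non-commutative A-polynomial of the sequence `f`: a non-zero element of the
extension to `ℚ(q, Q)⟨E⟩` of the annihilator of `f` in `ℤ[q^{±1}, Q^{±1}]⟨E⟩` (some multiple
`a(q, Q) α`, `a ≠ 0`, kills `f`), of the smallest possible degree in `E` (so a generator of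
this extension), whose coefficients have no common non-unit factor. -/
structure IsNCA (f : ℕ → RatFunc ℚ) (α : Polynomial R2) : Prop where
  ne : α ≠ 0
  kills : ∃ a : R2, a ≠ 0 ∧ Kills (C a * α) f
  min : ∀ β : Polynomial R2, β ≠ 0 → Kills β f → α.natDegree ≤ β.natDegree
  prim : ∀ d : R2, (∀ j, d ∣ α.coeff j) → IsUnit d

/-- The specialisation `q = 1`, `Q = M ^ 2` of the coefficients. -/
noncomputable def sp : R2 →+* LaurentPolynomial ℤ :=
  LaurentPolynomial.eval₂
    (LaurentPolynomial.eval₂ (Int.castRingHom (LaurentPolynomial ℤ)) 1)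
    (⟨LaurentPolynomial.T 2, LaurentPolynomial.T (-2),
      by rw [← LaurentPolynomial.T_add]; norm_num, by rw [← LaurentPolynomial.T_add]; norm_num⟩ :
      (LaurentPolynomial ℤ)ˣ)

/-! ## The peripheral group system -/

/-- A group with two distinguished elements, the meridian and the longitude. -/
structure PGroup where
  G : Type
  inst : Group G
  mer : G
  lon : G

attribute [instance] PGroup.inst

/-- The group of the unknot. -/
def unknotGroup : PGroup := ⟨Multiplicative ℤ, inferInstance, Multiplicative.ofAdd 1, 1⟩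

/-- The free product of the groups of `P` and `Q`. -/
abbrev FP (P Q : PGroup) : Type := Monoid.Coprod P.G Q.G

/-- The two inclusions into the free product. -/
noncomputable def inc₁ (P Q : PGroup) : P.G →* FP P Q := Monoid.Coprod.inl

noncomputable def inc₂ (P Q : PGroup) : Q.G →* FP P Q := Monoid.Coprod.inr

/-- The quotient of the free product by the normal closure of `u`. -/
def Quo (P Q : PGroup) (u : FP P Q) : Type := FP P Q ⧸ Subgroup.normalClosure {u}

noncomputable instance (P Q : PGroup) (u : FP P Q) : Group (Quo P Q u) :=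
  QuotientGroup.Quotient.group (Subgroup.normalClosure {u})

/-- The projection. -/
noncomputable def toQuo (P Q : PGroup) (u : FP P Q) : FP P Q →* Quo P Q u :=
  QuotientGroup.mk' (Subgroup.normalClosure {u})

/-- The quotient of the free product by the normal closure of `u`, with meridian `m` and
longitude `l`. -/
noncomputable def glue (P Q : PGroup) (u m l : FP P Q) : PGroup :=
  ⟨Quo P Q u, inferInstance, toQuo P Q u m, toQuo P Q u l⟩

/-- The core `x` of the solid torus. -/
noncomputable def coreX (P : PGroup) : FP P unknotGroup := inc₂ P unknotGroup unknotGroup.mer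

/-- The relator `x ^ s (μ ^ r λ ^ s)⁻¹`. -/
noncomputable def cableRel (r : ℤ) (s : ℕ) (P : PGroup) : FP P unknotGroup :=
  coreX P ^ s * (inc₁ P unknotGroup (P.mer ^ r * P.lon ^ s))⁻¹

/-- The meridian `μ ^ a λ ^ b x ^ {-b}` of the cable, `a s - b r = 1`, `a = gcdB r s`,
`b = -gcdA r s`. -/
noncomputable def cableMer (r : ℤ) (s : ℕ) (P : PGroup) : FP P unknotGroup :=
  inc₁ P unknotGroup (P.mer ^ Int.gcdB r s * P.lon ^ (-Int.gcdA r s)) * coreX P ^ Int.gcdA r s

/-- The exterior of the `(r, s)`-cable of `K` is the exterior of `K` with a solid torus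
(core `x`) attached along an annulus whose core is `x ^ s = μ ^ r λ ^ s`; the longitude is
`x ^ s μ_C ^ {-rs}`. -/
noncomputable def cableGroup (r : ℤ) (s : ℕ) (P : PGroup) : PGroup :=
  glue P unknotGroup (cableRel r s P) (cableMer r s P)
    (coreX P ^ s * cableMer r s P ^ (-(r * s)))

/-- The exterior of the connected sum: the two meridians are identified, the longitude is the
product of the two longitudes. -/
noncomputable def sumGroup (P Q : PGroup) : PGroup :=
  glue P Q (inc₁ P Q P.mer * (inc₂ P Q Q.mer)⁻¹) (inc₁ P Q P.mer)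
    (inc₁ P Q P.lon * inc₂ P Q Q.lon)

/-- The knot group with meridian and longitude. -/
noncomputable def GK.group : GK → PGroup
  | .unknot => unknotGroup
  | .cable r s K => cableGroup r s K.group
  | .sum K L => sumGroup K.group L.group

/-! ## The A-polynomial -/

/-- `w` is an eigenvector of `A` with eigenvalue `m` (or `w = 0`). -/
def IsEig (A : Matrix.SpecialLinearGroup (Fin 2) ℂ) (w : Fin 2 → ℂ) (m : ℂ) : Prop :=
  Matrix.mulVec A.1 w = m • w

/-- The eigenvalue pairs `(m, l)` of `ρ(μ)`, `ρ(λ)` on a common eigenvector, over all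
representations `ρ` into `SL(2, ℂ)`. -/
def EigSet (P : PGroup) : Set (ℂ × ℂ) :=
  {p | ∃ (ρ : P.G →* Matrix.SpecialLinearGroup (Fin 2) ℂ) (w : Fin 2 → ℂ), w ≠ 0 ∧
    IsEig (ρ P.mer) w p.1 ∧ IsEig (ρ P.lon) w p.2}

/-- Zariski closure in `(ℂ*)²`. -/
def Zcl (E : Set (ℂ × ℂ)) : Set (ℂ × ℂ) :=
  {p | p.1 ≠ 0 ∧ p.2 ≠ 0 ∧ ∀ G : ℂ[X][X], (∀ e ∈ E, G.evalEval e.1 e.2 = 0) →
    G.evalEval p.1 p.2 = 0}

/-- The zero set in `(ℂ*)²` of a polynomial `A(M, L)` with integer coefficients (inner variable
`M`, outer variable `L`). -/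
def ZeroSet (A : ℤ[X][X]) : Set (ℂ × ℂ) :=
  {p | p.1 ≠ 0 ∧ p.2 ≠ 0 ∧
    (A.map (Polynomial.mapRingHom (Int.castRingHom ℂ))).evalEval p.1 p.2 = 0}

/-- `A(M, L)` is an A-polynomial (up to multiplicities and units): not divisible by `L`, and
its zero curve in `(ℂ*)²` is the one-dimensional part of the Zariski closure of the set of
eigenvalue pairs. -/
def IsAPoly (P : PGroup) (A : ℤ[X][X]) : Prop :=
  A ≠ 0 ∧ ¬ (X ∣ A) ∧ ∃ T : Set (ℂ × ℂ), T.Finite ∧ Zcl (EigSet P) = ZeroSet A ∪ T

/-- The statement of the AJ conjecture for the graph knot `K`: A-polynomials and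
non-commutative A-polynomials exist, and an irreducible `F ∈ ℤ[M, L]` of positive degree in `L`
divides `α(1, M ^ 2, L)` if and only if it divides `A`. -/
def GK.AJ (K : GK) : Prop :=
  (∃ A, IsAPoly K.group A) ∧ (∃ α, IsNCA K.J α) ∧
  ∀ (A : ℤ[X][X]) (α : Polynomial R2), IsAPoly K.group A → IsNCA K.J α →
    ∀ F : ℤ[X][X], Irreducible F → 0 < F.natDegree →
      (F.map (Polynomial.toLaurent (R := ℤ)) ∣ α.map sp ↔ F ∣ A)

end AJG
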