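import Pool.Agent.Work.MP_d3fa71_gt.StmtsA

/-!
# MP_d3fa71_gt: lower bound (block C): definitions
-/

open Polynomial

namespace AJG

/-- The base field `ℚ(t)`. -/
abbrev FF : Type := RatFunc ℚ

/-! ## Knots of bounded height as types -/

/-- A level: a type `K` of knots (a commutative monoid under connected sum), those that are new
at this level, and whether this is the base level (only the unknot). -/
structure Lv where
  K : Type
  acm : AddCommMonoid K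
  new : K → Prop
  base : Prop

attribute [instance] Lv.acm

/-- Prime (cable type) knots over a level. -/
structure PT (L : Lv) where
  r : ℤ
  s : ℕ
  κ : L.K
  hs : 2 ≤ s
  hco : IsCoprime r (s : ℤ)
  hnew : L.new κ
  hb : L.base → (s : ℤ) < |r|

/-- The next level: a knot of the previous level plus a multiset of new primes. -/
def Lv.next (L : Lv) : Lv where
  K := L.K × Multiset (PT L)
  acm := inferInstance
  new := fun κ => κ.2 ≠ 0
  base := False

/-- The tower of levels. -/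
def lv : ℕ → Lv
  | 0 => ⟨Unit, inferInstance, fun _ => True, True⟩
  | n + 1 => (lv n).next

/-! ## Rings with data -/

/-- Units `t`, `x` (`= t^{2n}`), `h` (`= t^{n²}`) and elements `ib S c` (inverse to `[Sn+c]`). -/
structure Dat (R : Type) [CommRing R] where
  t : Rˣ
  x : Rˣ
  h : Rˣ
  ib : ℕ → ℕ → R

section
variable {R : Type} [CommRing R]

/-- `[Sn + c] = t^{2c} x^S - t^{-2c} x^{-S}`. -/
def Dat.br (D : Dat R) (S c : ℕ) : R :=
  ((D.t ^ (2 * (c : ℤ)) * D.x ^ (S : ℤ) : Rˣ) : R) -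
    ((D.t ^ (-(2 * (c : ℤ))) * D.x ^ (-(S : ℤ)) : Rˣ) : R)

def Dat.Ok (D : Dat R) : Prop := ∀ S c : ℕ, 0 < S → D.br S c * D.ib S c = 1

/-- Image of the data under a ring homomorphism. -/
def Dat.map {R' : Type} [CommRing R'] (D : Dat R) (φ : R →+* R') : Dat R' where
  t := Units.map φ.toMonoidHom D.t
  x := Units.map φ.toMonoidHom D.x
  h := Units.map φ.toMonoidHom D.h
  ib := fun S c => φ (D.ib S c)

variable {L : Lv}

/-- `t^{ϱsv²+2ϱv} h^{ϱsS²} x^{ϱS(sv+1)} J_κ(sS, sv+1)`. -/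
def fp (D : Dat R) (J : L.K → ℕ → ℕ → R) (ϱ : ℤ) (s S : ℕ) (κ : L.K) (v : ℕ) : R :=
  ((D.t ^ (ϱ * s * (v : ℤ) ^ 2 + 2 * ϱ * v) * D.h ^ (ϱ * s * (S : ℤ) ^ 2) *
    D.x ^ (ϱ * S * (s * v + 1)) : Rˣ) : R) * J κ (s * S) (s * v + 1)

/-- `t^{ϱsv²-2ϱv} h^{ϱsS²} x^{ϱS(sv-1)} J_κ(sS, sv-1)`. -/
def fm (D : Dat R) (J : L.K → ℕ → ℕ → R) (ϱ : ℤ) (s S : ℕ) (κ : L.K) (v : ℕ) : R :=
  ((D.t ^ (ϱ * s * (v : ℤ) ^ 2 - 2 * ϱ * v) * D.h ^ (ϱ * s * (S : ℤ) ^ 2) *
    D.x ^ (ϱ * S * (s * v - 1)) : Rˣ) : R) * J κ (s * S) (s * v - 1)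

/-- The (virtual) increment `g^{(p)}_{ϱ,s,S,i,κ}`. -/
def gv (D : Dat R) (J : L.K → ℕ → ℕ → R) (ϱ : ℤ) (s S i p : ℕ) (κ : L.K) : R :=
  ∑ k ∈ Finset.range (S / 2),
    (fp D J ϱ s S κ (i + 1 + 2 * k) * D.ib (s * S) (s * (i + 1 + 2 * k) + 1) ^ p -
      fm D J ϱ s S κ (i + 1 + 2 * k) * D.ib (s * S) (s * (i + 1 + 2 * k) - 1) ^ p)

/-- The value `J_P(S, c)` of a prime in terms of the variables `b S i`. -/
def JP (D : Dat R) (J : L.K → ℕ → ℕ → R) (b : ℕ → ℕ → R) (P : PT L) (S c : ℕ) : R :=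
  ((D.h ^ (-(P.r * P.s * (S : ℤ) ^ 2)) * D.x ^ (-(P.r * P.s * S * c)) *
    D.t ^ (-(P.r * P.s * (c : ℤ) ^ 2)) : Rˣ) : R) *
  (if P.s = 2 then
    (-1) ^ c * (b S 0 - ((D.t ^ (P.r * P.s) : Rˣ) : R) *
      ∑ k ∈ Finset.range c, (-1) ^ k * fp D J P.r P.s S P.κ k)
  else
    b S (c % 2) + ((D.t ^ (P.r * P.s) : Rˣ) : R) *
      ∑ k ∈ Finset.range (c / 2),
        (fp D J P.r P.s S P.κ (c % 2 + 1 + 2 * k) - fm D J P.r P.s S P.κ (c % 2 + 1 + 2 * k)))

/-- The values on the next level. -/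
def nextJ (D : Dat R) (J : L.K → ℕ → ℕ → R) (b : PT L → ℕ → ℕ → R) :
    L.next.K → ℕ → ℕ → R :=
  fun κ S c => J κ.1 S c * (κ.2.map fun P => JP D J (b P) P S c * D.ib S c).prod

end

/-- The variables over a level. -/
structure Var (L : Lv) where
  P : PT L
  S : ℕ
  i : ℕ
  hS : 0 < S
  hS2 : Even S
  hi : i < 2
  h2 : P.s = 2 → i = 0

/-- Virtual indices over a level, at scale `S₁ = s S`. -/
structure Vir (L : Lv) (S₁ : ℕ) where
  ϱ : ℤ
  s : ℕ
  S : ℕ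
  i : ℕ
  p : ℕ
  κ : L.K
  hs : 2 ≤ s
  hco : IsCoprime ϱ (s : ℤ)
  hS1 : s * S = S₁
  hS : 0 < S
  hS2 : Even S
  hi : i < 2
  h2 : s = 2 → i = 0
  hp : 1 ≤ p

/-- `g` is linearly independent over `ℚ(t)` modulo the image of `σ - 1`. -/
def IndepMod {A : Type} [CommRing A] [Algebra FF A] (σ : A →+* A) {V : Type} (g : V → A) : Prop :=
  ∀ (c : V →₀ FF) (b : A), (c.sum fun v a => a • g v) = σ b - b → c = 0

/-- `σ`-simple: no proper non-zero `σ`-stable ideal. -/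
def SSimple {A : Type} [CommRing A] (σ : A →+* A) : Prop :=
  Nontrivial A ∧ ∀ I : Ideal A, (∀ a ∈ I, σ a ∈ I) → I = ⊥ ∨ I = ⊤

/-- The constants are `ℚ(t)`. -/
def SConst {A : Type} [CommRing A] [Algebra FF A] (σ : A →+* A) : Prop :=
  (∀ c : FF, σ (algebraMap FF A c) = algebraMap FF A c) ∧
  ∀ a : A, σ a = a → ∃ c : FF, algebraMap FF A c = a

/-- The family of increments attached to a level. -/
noncomputable def gfam {L : Lv} {A : Type} [CommRing A] (D : Dat A) (J : L.K → ℕ → ℕ → A)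
    (S₁ : ℕ) : Vir L S₁ ⊕ Var L → A
  | .inl v => gv D J v.ϱ v.s v.S v.i v.p v.κ
  | .inr w => gv D J w.P.r w.P.s w.S w.i 0 w.P.κ

/-- The properties carried along the tower. -/
structure Core (L : Lv) (A : Type) [CommRing A] [Algebra FF A] (D : Dat A) (σ : A →+* A)
    (J : L.K → ℕ → ℕ → A) : Prop where
  ok : D.Ok
  ht : (D.t : A) = algebraMap FF A t
  sx : σ D.x = D.t ^ 2 * D.x
  sh : σ D.h = D.t * D.x * D.h
  sJ : ∀ (κ : L.K) (S c : ℕ), 0 < S → Even S → σ (J κ S c) = J κ S (c + S)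
  simple : SSimple σ
  const : SConst σ
  ind : ∀ S₁ : ℕ, IndepMod σ (gfam D J S₁)

/-! ## The polynomial extension -/

section
variable {A : Type} [CommRing A]

/-- The extension of `σ` to `A[W]` with `σ(X w) = X w + g w`. -/
noncomputable def sext {W : Type} (σ : A →+* A) (g : W → A) :
    MvPolynomial W A →+* MvPolynomial W A :=
  MvPolynomial.eval₂Hom (MvPolynomial.C.comp σ) (fun w => MvPolynomial.X w + MvPolynomial.C (g w))

/-- The increments of the variables over a level. -/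
noncomputable def gvar {L : Lv} (D : Dat A) (J : L.K → ℕ → ℕ → A) (w : Var L) : A :=
  ((D.t ^ (w.P.r * w.P.s) : Aˣ) : A) * gv D J w.P.r w.P.s w.S w.i 0 w.P.κ

/-- The variable `B_{P,S,i}` as a function of `P`, `S`, `i` (`0` outside the index set). -/
noncomputable def bvar (L : Lv) (A : Type) [CommRing A] (P : PT L) (S i : ℕ) :
    MvPolynomial (Var L) A := by
  classical
  exact if h : 0 < S ∧ Even S ∧ i < 2 ∧ (P.s = 2 → i = 0) then
    MvPolynomial.X ⟨P, S, i, h.1, h.2.1, h.2.2.1, h.2.2.2⟩ else 0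

/-- The data on the polynomial extension. -/
noncomputable def nextD {L : Lv} (D : Dat A) : Dat (MvPolynomial (Var L) A) :=
  D.map (MvPolynomial.C : A →+* MvPolynomial (Var L) A)

/-- The values on the polynomial extension. -/
noncomputable def extJ {L : Lv} (D : Dat A) (J : L.K → ℕ → ℕ → A) :
    L.next.K → ℕ → ℕ → MvPolynomial (Var L) A :=
  nextJ (nextD (L := L) D) (fun κ S c => MvPolynomial.C (J κ S c)) (bvar L A)

end

/-! ## The top monomial -/

/-- The parity of `s v ± 1` for `v ≡ i + 1 mod 2`. -/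
def par (s i : ℕ) : ℕ := (s * (i + 1) + 1) % 2

/-- The monomial `∏_{P ∈ M} B_{P, S₁, ε_P}`. -/
noncomputable def mono {L : Lv} (M : Multiset (PT L)) (S₁ e : ℕ) (h : 0 < S₁ ∧ Even S₁)
    (he : e < 2) : Var L →₀ ℕ := by
  classical
  exact Multiset.toFinsupp (M.map fun P =>
    (⟨P, S₁, if P.s = 2 then 0 else e, h.1, h.2, by split_ifs <;> omega, by
      intro h2; simp [h2]⟩ : Var L))

/-- `∑_{P ∈ M} r_P s_P`. -/
def AA {L : Lv} (M : Multiset (PT L)) : ℤ := (M.map fun P => P.r * (P.s : ℤ)).sum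

/-- The sign `∏_{P ∈ M, s_P = 2} (-1)^e`. -/
def sgM {L : Lv} (M : Multiset (PT L)) (e : ℕ) : ℤ :=
  (M.map fun P => if P.s = 2 then (-1 : ℤ) ^ e else 1).prod

end AJG
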