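import Pool.Agent.Work.MP_d3fa71_gt.Defs

/-!
# MP_d3fa71_gt: labels, classical side (block A) and final algebra (block D): statements
-/

open Polynomial

namespace AJG

/-- Labels `(ε, λ)` of a graph knot: the curves `L = ε M ^ λ`. -/
def GK.Lab : GK → Finset (ℤˣ × ℤ)
  | .unknot => {(1, 0)}
  | .cable r s K =>
      (if s = 2 then {(-1, -(r * s))} else {(1, -(r * s)), (-1, -(r * s))}) ∪
        K.Lab.image fun z => (z.1 ^ s, z.2 * (s : ℤ) ^ 2)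
  | .sum K L => Finset.image₂ (fun z w => (z.1 * w.1, z.2 + w.2)) K.Lab L.Lab

/-- The union of the curves `l = ε m ^ λ` in `(ℂ*)²`. -/
def Curves (S : Finset (ℤˣ × ℤ)) : Set (ℂ × ℂ) :=
  {p | p.1 ≠ 0 ∧ ∃ z ∈ S, p.2 = ((z.1 : ℤ) : ℂ) * p.1 ^ z.2}

abbrev SL2 : Type := Matrix.SpecialLinearGroup (Fin 2) ℂ

/-- The central element `±1` of `SL(2, ℂ)`. -/
noncomputable def sg (u : ℤˣ) : SL2 := if u = 1 then 1 else -1

/-- Hyperbolic elements. -/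
def Hyp (A : SL2) : Prop := ∃ m : ℂ, 1 < ‖m‖ ∧ A.1.trace = m + m⁻¹

/-! ### Matrix lemmas -/

/-- an eigenvector of a non central `H` is an eigenvector of every `V` commuting with `H`. -/
def S_EigComm : Prop := ∀ (H V : SL2) (w : Fin 2 → ℂ) (a : ℂ), w ≠ 0 → H ≠ 1 → H ≠ -1 →
  H * V = V * H → Matrix.mulVec H.1 w = a • w → ∃ v : ℂ, Matrix.mulVec V.1 w = v • w

def S_SqOne : Prop := ∀ V : SL2, V ^ 2 = 1 → V = 1 ∨ V = -1

/-- non central elements with the same trace are conjugate. -/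
def S_Conj : Prop := ∀ A B : SL2, A ≠ 1 → A ≠ -1 → B ≠ 1 → B ≠ -1 → A.1.trace = B.1.trace →
  ∃ g : SL2, g * A * g⁻¹ = B

/-- the trace of `W · gUg⁻¹` takes all values. -/
def S_Trace : Prop := ∀ (W U : SL2) (τ : ℂ), W ≠ 1 → W ≠ -1 → U ≠ 1 → U ≠ -1 →
  ∃ g : SL2, (W * (g * U * g⁻¹)).1.trace = τ

/-- for `ζ ^ k = u` solvable with `ζ ≠ ±1` : a diagonal matrix. -/
def S_DiagRoot : Prop := ∀ (k : ℤ) (u : ℤˣ), 3 ≤ |k| →
  ∃ A : SL2, A.1.trace ≠ 2 ∧ A.1.trace ≠ -2 ∧ A ^ k = sg u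

/-- `V` with `V ^ s = δ` and `V ^ b` non central for `b` prime to `s`. -/
def S_VRoot : Prop := ∀ (s : ℕ) (δ : ℤˣ), 2 ≤ s → (s = 2 → δ = -1) →
  ∃ V : SL2, V ^ s = sg δ ∧ ∀ b : ℤ, IsCoprime b (s : ℤ) → V ^ b ≠ 1 ∧ V ^ b ≠ -1

/-! ### Homomorphisms from the groups -/

def S_CableHom : Prop := ∀ (r : ℤ) (s : ℕ) (P : PGroup) (ρ : P.G →* SL2) (V : SL2),
  V ^ s = ρ P.mer ^ r * ρ P.lon ^ s →
  ∃ ρ' : (cableGroup r s P).G →* SL2,
    ρ' (cableGroup r s P).mer =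
      ρ P.mer ^ (Int.gcdB r s) * ρ P.lon ^ (-Int.gcdA r s) * V ^ (Int.gcdA r s) ∧
    ρ' (cableGroup r s P).lon = V ^ s * (ρ' (cableGroup r s P).mer) ^ (-(r * s))

def S_CableRes : Prop := ∀ (r : ℤ) (s : ℕ) (P : PGroup) (ρ' : (cableGroup r s P).G →* SL2),
  ∃ (ρ : P.G →* SL2) (V : SL2), V ^ s = ρ P.mer ^ r * ρ P.lon ^ s ∧
    ρ' (cableGroup r s P).mer =
      ρ P.mer ^ (Int.gcdB r s) * ρ P.lon ^ (-Int.gcdA r s) * V ^ (Int.gcdA r s) ∧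
    ρ' (cableGroup r s P).lon = V ^ s * (ρ' (cableGroup r s P).mer) ^ (-(r * s))

def S_SumHom : Prop := ∀ (P Q : PGroup) (ρ₁ : P.G →* SL2) (ρ₂ : Q.G →* SL2),
  ρ₁ P.mer = ρ₂ Q.mer →
  ∃ ρ' : (sumGroup P Q).G →* SL2, ρ' (sumGroup P Q).mer = ρ₁ P.mer ∧
    ρ' (sumGroup P Q).lon = ρ₁ P.lon * ρ₂ Q.lon

def S_SumRes : Prop := ∀ (P Q : PGroup) (ρ' : (sumGroup P Q).G →* SL2),
  ∃ (ρ₁ : P.G →* SL2) (ρ₂ : Q.G →* SL2), ρ₁ P.mer = ρ₂ Q.mer ∧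
    ρ' (sumGroup P Q).mer = ρ₁ P.mer ∧ ρ' (sumGroup P Q).lon = ρ₁ P.lon * ρ₂ Q.lon

/-- meridian and longitude commute. -/
def S_PerComm : Prop := ∀ K : GK, K.group.mer * K.group.lon = K.group.lon * K.group.mer

/-- a representation with central meridian kills the longitude. -/
def S_Central : Prop := ∀ K : GK, K.Valid → ∀ ρ : K.group.G →* SL2,
  (ρ K.group.mer = 1 ∨ ρ K.group.mer = -1) → ρ K.group.lon = 1

/-- eigenvalue pairs lie on the curves. -/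
def S_Up : Prop := ∀ K : GK, K.Valid → EigSet K.group ⊆ Curves K.Lab

/-- abelian representations. -/
def S_Abel : Prop := ∀ K : GK, K.Valid → ∀ A : SL2, ∃ ρ : K.group.G →* SL2,
  ρ K.group.mer = A ∧ ρ K.group.lon = 1

/-- the new component of a cable, given a suitable representation of the companion. -/
def S_New : Prop := ∀ (r : ℤ) (s : ℕ) (K : GK) (δ : ℤˣ), 2 ≤ s → IsCoprime r (s : ℤ) →
  (s = 2 → δ = -1) →
  (∃ ρ : K.group.G →* SL2, ρ K.group.mer ≠ 1 ∧ ρ K.group.mer ≠ -1 ∧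
    ρ K.group.mer ^ r * ρ K.group.lon ^ s = sg δ) →
  ∀ A : SL2, A.1.trace ≠ 2 → A.1.trace ≠ -2 →
    ∃ ρ' : (GK.cable r s K).group.G →* SL2, ρ' (GK.cable r s K).group.mer = A ∧
      ρ' (GK.cable r s K).group.lon = sg δ * A ^ (-(r * s))

def S_NewAll : Prop := ∀ (r : ℤ) (s : ℕ) (K : GK) (δ : ℤˣ), (GK.cable r s K).Valid →
  (s = 2 → δ = -1) → ∀ A : SL2, A.1.trace ≠ 2 → A.1.trace ≠ -2 →
    ∃ ρ' : (GK.cable r s K).group.G →* SL2, ρ' (GK.cable r s K).group.mer = A ∧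
      ρ' (GK.cable r s K).group.lon = sg δ * A ^ (-(r * s))

/-- every label is realised over every hyperbolic meridian. -/
def S_Down : Prop := ∀ K : GK, K.Valid → ∀ z ∈ K.Lab, ∀ A : SL2, Hyp A →
  ∃ ρ : K.group.G →* SL2, ρ K.group.mer = A ∧ ρ K.group.lon = sg z.1 * A ^ z.2

def S_Closure : Prop := ∀ K : GK, K.Valid → Zcl (EigSet K.group) = Curves K.Lab

/-! ### Final algebra -/

/-- The Laurent polynomial `ε M ^ λ`. -/
noncomputable def lab (z : ℤˣ × ℤ) : LaurentPolynomial ℤ :=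
  LaurentPolynomial.C (z.1 : ℤ) * LaurentPolynomial.T z.2

/-- `F(M, L)` as a polynomial in `L` over `ℤ[M^{±1}]`. -/
noncomputable def toL (F : ℤ[X][X]) : Polynomial (LaurentPolynomial ℤ) :=
  F.map (Polynomial.toLaurent (R := ℤ))

/-- irreducible factors of an A-polynomial with given curves. -/
def S_ADiv : Prop := ∀ (S : Finset (ℤˣ × ℤ)) (A : ℤ[X][X]), A ≠ 0 → ¬ (X ∣ A) →
  (∃ T : Set (ℂ × ℂ), T.Finite ∧ Curves S = ZeroSet A ∪ T) →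
  ∀ F : ℤ[X][X], Irreducible F → 0 < F.natDegree →
    (F ∣ A ↔ ∃ z ∈ S, (toL F).eval (lab z) = 0)

def S_AEx : Prop := ∀ S : Finset (ℤˣ × ℤ), ∃ A : ℤ[X][X], A ≠ 0 ∧ ¬ (X ∣ A) ∧
  ∃ T : Set (ℂ × ℂ), T.Finite ∧ Curves S = ZeroSet A ∪ T

def S_NDiv : Prop := ∀ (S : Finset (ℤˣ × ℤ)) (a : Polynomial (LaurentPolynomial ℤ)), a ≠ 0 →
  (∀ z ∈ S, a.eval (lab z) = 0) →
  (∃ (l : List (ℤˣ × ℤ)) (c : LaurentPolynomial ℤ), c ≠ 0 ∧ (∀ z ∈ l, z ∈ S) ∧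
    a ∣ C c * (l.map fun z => (X - C (lab z) : Polynomial (LaurentPolynomial ℤ))).prod) →
  ∀ F : ℤ[X][X], Irreducible F → 0 < F.natDegree →
    (toL F ∣ a ↔ ∃ z ∈ S, (toL F).eval (lab z) = 0)

/-- a primitive operator does not vanish at `q = 1`. -/
def S_SpNe : Prop := ∀ α : Polynomial R2, (∀ d : R2, (∀ j, d ∣ α.coeff j) → IsUnit d) →
  α.map sp ≠ 0

/-! ### The three results on the coloured Jones function -/

/-- `α` kills `f` for all large `n`. -/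
def KillsEv (α : Polynomial R2) (f : ℕ → RatFunc ℚ) : Prop :=
  ∃ n₀ : ℕ, ∀ n : ℕ, n₀ ≤ n →
    ∑ j ∈ Finset.range (α.natDegree + 1), ev n (α.coeff j) * f (n + j) = 0

/-- a non-zero coefficient vanishes at finitely many `n` only. -/
def S_EvNe : Prop := ∀ a : R2, a ≠ 0 → ∃ n₀ : ℕ, ∀ n : ℕ, n₀ ≤ n → ev n a ≠ 0

/-- a non-commutative A-polynomial kills the sequence for large `n`. -/
def S_NCAEv : Prop := ∀ (f : ℕ → RatFunc ℚ) (α : Polynomial R2), IsNCA f α → KillsEv α f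

/-- existence. -/
def S_EX : Prop := ∀ K : GK, K.Valid → ∃ α, IsNCA K.J α

/-- upper bound: all roots at `q = 1` are labels. -/
def S_UB : Prop := ∀ K : GK, K.Valid → ∀ α, IsNCA K.J α →
  ∃ (l : List (ℤˣ × ℤ)) (c : LaurentPolynomial ℤ), c ≠ 0 ∧ (∀ z ∈ l, z ∈ K.Lab) ∧
    α.map sp ∣ C c * (l.map fun z => (X - C (lab z) : Polynomial (LaurentPolynomial ℤ))).prod

/-- lower bound: all labels are roots. -/
def S_LB : Prop := ∀ K : GK, K.Valid → ∀ α : Polynomial R2, KillsEv α K.J →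
  ∀ z ∈ K.Lab, (α.map sp).eval (lab z) = 0

def S_Main : Prop := ∀ K : GK, K.Valid → K.AJ

end AJG
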